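import Pool.Agent.W783.Perc.Stmts

/-!
PC-HIGH: percolation for parameters near one.
-/

set_option autoImplicit false

open MeasureTheory Set

namespace Pool.Agent.W308.PC.High

open Pool.Agent.W783.PC
open Pool.Agent.H592F

variable {n : ℕ}

/-- the plane -/
def pv (n : ℕ) (v : ℤ × ℤ) : V n := (v.1, v.2 • e1 n)

theorem pv_snd (hn : 1 ≤ n) (v : ℤ × ℤ) : (pv n v).2 ⟨0, hn⟩ = v.2 := by
  unfold pv e1
  simp

theorem pv_inj (hn : 1 ≤ n) {v w : ℤ × ℤ} (h : pv n v = pv n w) : v = w := by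
  have h1 : v.1 = w.1 := congrArg (fun z : V n => z.1) h
  have h2 : v.2 = w.2 := by
    rw [← pv_snd hn v, ← pv_snd hn w, h]
  exact Prod.ext h1 h2

theorem pv_zero : pv n (0, 0) = 0 := by
  unfold pv
  simp

theorem nn_right (v : ℤ × ℤ) : NN (pv n v) (pv n (v.1 + 1, v.2)) := by
  unfold NN pv
  simp

theorem sum_e1 (hn : 1 ≤ n) : ∑ i, |e1 n i| = 1 := by
  unfold e1
  have : ∀ i : Fin n, |(if (i : ℕ) = 0 then (1 : ℤ) else 0)| =
      if i = (⟨0, hn⟩ : Fin n) then 1 else 0 := by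
    intro i
    by_cases h : (i : ℕ) = 0
    · rw [if_pos h, if_pos (Fin.ext h)]; simp
    · rw [if_neg h, if_neg (fun h2 => h (congrArg Fin.val h2))]; simp
  simp only [this]
  simp

theorem nn_up (hn : 1 ≤ n) (v : ℤ × ℤ) : NN (pv n v) (pv n (v.1, v.2 + 1)) := by
  unfold NN pv
  simp only [sub_self, abs_zero, zero_add]
  refine Eq.trans ?_ (sum_e1 hn)
  apply Finset.sum_congr rfl
  intro i _
  have : (v.2 • e1 n) i - ((v.2 + 1) • e1 n) i = - e1 n i := by
    simp only [Pi.smul_apply, smul_eq_mul]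
    ring
  rw [this, abs_neg]

/-- the coordinates of a cell -/
noncomputable def D (n : ℕ) (v : ℤ × ℤ) : Finset (Ix n) := by
  classical
  exact {Sum.inl (pv n v), Sum.inl (pv n (v.1 + 1, v.2)), Sum.inl (pv n (v.1, v.2 + 1)),
    Sum.inr s(pv n v, pv n (v.1 + 1, v.2)), Sum.inr s(pv n v, pv n (v.1, v.2 + 1))}

theorem mem_D {v : ℤ × ℤ} {c : Ix n} : c ∈ D n v ↔ c = Sum.inl (pv n v) ∨
    c = Sum.inl (pv n (v.1 + 1, v.2)) ∨ c = Sum.inl (pv n (v.1, v.2 + 1)) ∨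
    c = Sum.inr s(pv n v, pv n (v.1 + 1, v.2)) ∨ c = Sum.inr s(pv n v, pv n (v.1, v.2 + 1)) := by
  unfold D
  simp only [Finset.mem_insert, Finset.mem_singleton]

theorem card_D (v : ℤ × ℤ) : (D n v).card ≤ 5 := by
  unfold D
  exact Finset.card_le_five

theorem mem_D_aux {v : ℤ × ℤ} {c : Ix n} (h : c ∈ D n v) : ∃ u : ℤ × ℤ,
    |u.1 - v.1| ≤ 1 ∧ |u.2 - v.2| ≤ 1 ∧ (c = Sum.inl (pv n u) ∨ c = Sum.inr s(pv n v, pv n u)) := by
  rw [mem_D] at h
  rcases h with h | h | h | h | h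
  · exact ⟨v, by simp, by simp, Or.inl h⟩
  · exact ⟨(v.1 + 1, v.2), by simp, by simp, Or.inl h⟩
  · exact ⟨(v.1, v.2 + 1), by simp, by simp, Or.inl h⟩
  · exact ⟨(v.1 + 1, v.2), by simp, by simp, Or.inr h⟩
  · exact ⟨(v.1, v.2 + 1), by simp, by simp, Or.inr h⟩

theorem D_disj (hn : 1 ≤ n) (s t : ℤ × ℤ) (h : far s t) : Disjoint (D n s) (D n t) := by
  rw [Finset.disjoint_left]
  intro c hs ht
  obtain ⟨u, hu1, hu2, hu⟩ := mem_D_aux hs
  obtain ⟨w, hw1, hw2, hw⟩ := mem_D_aux ht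
  rw [abs_le] at hu1 hu2 hw1 hw2
  have key : (|s.1 - t.1| ≤ 3 ∧ |s.2 - t.2| ≤ 3) → False := by
    rintro ⟨h1, h2⟩
    rcases h with h | h <;> omega
  apply key
  rcases hu with hu | hu <;> rcases hw with hw | hw
  · rw [hu] at hw
    have := pv_inj hn (Sum.inl.inj hw)
    rw [abs_le, abs_le]
    rw [this] at hu1 hu2
    omega
  · rw [hu] at hw; exact absurd hw (by simp)
  · rw [hu] at hw; exact absurd hw (by simp)
  · rw [hu] at hw
    have h3 := Sum.inr.inj hw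
    rw [Sym2.eq_iff] at h3
    rcases h3 with ⟨h3, -⟩ | ⟨h3, -⟩
    · have := pv_inj hn h3
      rw [this]; simp
    · have := pv_inj hn h3
      rw [this, abs_le, abs_le]
      omega

/-- the bad events -/
def B (n : ℕ) (v : ℤ × ℤ) : Set (Cfg n) := {ω | ∃ c ∈ D n v, ω c = false}

theorem B_dep (v : ℤ × ℤ) : DepOn (B n v) (D n v : Set (Ix n)) := by
  intro ω ω' h
  constructor
  · rintro ⟨c, hc, h1⟩
    exact ⟨c, hc, by rw [← h c hc]; exact h1⟩
  · rintro ⟨c, hc, h1⟩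
    exact ⟨c, hc, by rw [h c hc]; exact h1⟩

theorem pm_false {ι : Type} (r : ι → unitInterval) (c : ι) :
    (pm r).real {ω | ω c = false} = 1 - (r c : ℝ) := by
  have h1 : (0 : ℝ) ≤ 1 - r c := by linarith [(r c).2.2]
  have h2 := measurePreserving_eval_infinitePi (fun c => bern (r c)) c
  have h3 : {ω : ι → Bool | ω c = false} = (Function.eval c) ⁻¹' ({false} : Set Bool) := rfl
  rw [measureReal_def, h3]
  unfold pm
  rw [h2.measure_preimage (measurableSet_singleton _).nullMeasurableSet]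
  unfold bern
  simp [h1]

theorem prob_ge (hn : 1 ≤ n) (m : ℕ) (a p : unitInterval) (β : NNReal) (s : ℝ) (q : ℝ)
    (ha : q ≤ (a : ℝ)) (hp : q ≤ (p : ℝ)) (v : ℤ × ℤ) (c : Ix n) (hc : c ∈ D n v) :
    q ≤ (prob a p β s m c : ℝ) := by
  rw [mem_D] at hc
  rcases hc with h | h | h | h | h
  · rw [h]; exact ha
  · rw [h]; exact ha
  · rw [h]; exact ha
  · rw [h]
    have h2 : isNN s(pv n v, pv n (v.1 + 1, v.2)) := ⟨_, _, rfl, nn_right v⟩
    have h3 : prob a p β s m (Sum.inr s(pv n v, pv n (v.1 + 1, v.2))) = p := by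
      unfold prob
      simp only [if_pos h2]
    rw [h3]
    exact hp
  · rw [h]
    have h2 : isNN s(pv n v, pv n (v.1, v.2 + 1)) := ⟨_, _, rfl, nn_up hn v⟩
    have h3 : prob a p β s m (Sum.inr s(pv n v, pv n (v.1, v.2 + 1))) = p := by
      unfold prob
      simp only [if_pos h2]
    rw [h3]
    exact hp

theorem B_prob (hn : 1 ≤ n) (m : ℕ) (a p : unitInterval) (β : NNReal) (s : ℝ)
    (ha : 1 - 1 / 10 ^ 13 ≤ (a : ℝ)) (hp : 1 - 1 / 10 ^ 13 ≤ (p : ℝ)) (v : ℤ × ℤ) :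
    (pm (prob (n := n) a p β s m)).real (B n v) ≤ 1 / 10 ^ 12 := by
  have h1 : B n v ⊆ ⋃ c ∈ D n v, {ω | ω c = false} := by
    rintro ω ⟨c, hc, h⟩
    simp only [mem_iUnion]
    exact ⟨c, hc, h⟩
  calc (pm (prob (n := n) a p β s m)).real (B n v)
      ≤ (pm (prob (n := n) a p β s m)).real (⋃ c ∈ D n v, {ω | ω c = false}) :=
        measureReal_mono h1 (measure_ne_top _ _)
    _ ≤ ∑ c ∈ D n v, (pm (prob (n := n) a p β s m)).real {ω | ω c = false} :=
        measureReal_biUnion_finset_le _ _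
    _ ≤ ∑ _c ∈ D n v, (1 / 10 ^ 13 : ℝ) := by
        apply Finset.sum_le_sum
        intro c hc
        rw [pm_false]
        have := prob_ge hn m a p β s _ ha hp v c hc
        linarith
    _ = (D n v).card * (1 / 10 ^ 13 : ℝ) := by rw [Finset.sum_const, nsmul_eq_mul]
    _ ≤ 5 * (1 / 10 ^ 13 : ℝ) := by
        apply mul_le_mul_of_nonneg_right _ (by norm_num)
        exact_mod_cast card_D v
    _ ≤ 1 / 10 ^ 12 := by norm_num

theorem wet_reach (hn : 1 ≤ n) (m : ℕ) (ω : Cfg n) (x : ℤ × ℤ)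
    (h : Wet (fun v => ω ∈ B n v) x) : (G (EdI m) ω univ).Reachable 0 (pv n x) := by
  have hne : ∀ v w : ℤ × ℤ, v ≠ w → pv n v ≠ pv n w := fun v w h1 h2 => h1 (pv_inj hn h2)
  have hopen : ∀ v : ℤ × ℤ, ¬ ω ∈ B n v → ∀ c ∈ D n v, ω c = true := by
    intro v hv c hc
    by_contra hne
    exact hv ⟨c, hc, by simpa using hne⟩
  induction h with
  | zero => rw [pv_zero]
  | @right v _ hv ih =>
    refine ih.trans (SimpleGraph.Adj.reachable ?_)
    refine ⟨hne _ _ ?_, mem_univ _, mem_univ _, Or.inl ⟨_, _, rfl, nn_right v⟩, ?_, ?_, ?_⟩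
    · intro h
      have := congrArg Prod.fst h
      simp at this
    · exact hopen v hv _ (mem_D.2 (Or.inl rfl))
    · exact hopen v hv _ (mem_D.2 (Or.inr (Or.inl rfl)))
    · exact hopen v hv _ (mem_D.2 (Or.inr (Or.inr (Or.inr (Or.inl rfl)))))
  | @up v _ hv ih =>
    refine ih.trans (SimpleGraph.Adj.reachable ?_)
    refine ⟨hne _ _ ?_, mem_univ _, mem_univ _, Or.inl ⟨_, _, rfl, nn_up hn v⟩, ?_, ?_, ?_⟩
    · intro h
      have := congrArg Prod.snd h
      simp at this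
    · exact hopen v hv _ (mem_D.2 (Or.inl rfl))
    · exact hopen v hv _ (mem_D.2 (Or.inr (Or.inr (Or.inl rfl))))
    · exact hopen v hv _ (mem_D.2 (Or.inr (Or.inr (Or.inr (Or.inr rfl)))))

theorem s_high (hM : S_multi) : S_high := by
  intro n hn
  refine ⟨1 / 10 ^ 13, by norm_num, ?_⟩
  intro m a p β s ha hp
  have h1 := hM (Ix n) (prob a p β s m) (B n) (D n) B_dep (fun s t h => D_disj hn s t h)
    (B_prob hn m a p β s ha hp)
  have h2 : {ω : Cfg n | ∀ k, safe (bad (fun v => ω ∈ B n v) k) (0, 0)} ⊆ Perc (EdI m) 0 := by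
    intro ω hω hfin
    have hfin2 : (cl (EdI m) ω univ (0 : V n)).Finite := hfin
    have hbd := (hfin2.image (fun y : V n => y.1 + y.2 ⟨0, hn⟩)).bddAbove
    obtain ⟨N, hN⟩ := hbd
    obtain ⟨x, hx, hsum⟩ := perc_det _ hω (N.toNat + 1)
    have h3 := hN ⟨pv n x, wet_reach hn m ω x hx, rfl⟩
    simp only [pv_snd hn] at h3
    have h4 : (pv n x).1 = x.1 := rfl
    rw [h4] at h3
    push_cast at hsum
    have := Int.self_le_toNat N
    omega
  have h3 := measureReal_mono (μ := pm (prob (n := n) a p β s m)) h2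
  linarith

end Pool.Agent.W308.PC.High
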